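import Mathlib
import Pool.Agent.MP_34d6af_nt.Final2

set_option autoImplicit false

namespace Pool.Agent.Results.MP_34d6af_nt.LowerAlmostAll

open Finset Filter
open Pool.Agent.MP_34d6af_nt

/-- Lower half of Q1 for all primes outside a sparse set, uniformly in the direction. -/
theorem result (ε : ℝ) (hε : 0 < ε) : ∃ C A : ℝ, ∃ E : Set ℕ,
    (∀ X : ℕ, 1 ≤ X → ((E ∩ Set.Iic X).ncard : ℝ) ≤ A * (X : ℝ) ^ ε) ∧
      ∀ (q : ℕ) [NeZero q], q.Prime → q ∉ E → ∀ θ : ℝ,
        (q : ℝ) ^ (1 - ε) ≤ (Set.ncard {χ : DirichletCharacter ℂ q | χ ≠ 1 ∧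
          Real.log (Real.log (q : ℝ)) + Real.log (Real.log (Real.log (q : ℝ))) - C ≤
            (Complex.exp (-(θ : ℂ) * Complex.I) *
              (deriv (DirichletCharacter.LFunction χ) 1 /
                DirichletCharacter.LFunction χ 1)).re} : ℝ) := by
  classical
  set ε' := min ε 1 with hε'
  have hε'0 : 0 < ε' := lt_min hε one_pos
  have hε'1 : ε' ≤ 1 := min_le_right _ _
  have hε'2 : ε' ≤ ε := min_le_left _ _
  obtain ⟨C1, h1⟩ := lower_dyadic ε' hε'0 hε'1
  let Lw : ℕ → Prop := fun q => ∀ [NeZero q], ∀ w : ℂ, ‖w‖ = 1 →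
    (q : ℝ) ^ (1 - ε') ≤ ((univ.filter (fun χ : DirichletCharacter ℂ q => χ ≠ 1 ∧
      Real.log (Real.log q) + Real.log (Real.log (Real.log q)) - C1 ≤
        (w * LD χ).re)).card : ℝ)
  let E : Set ℕ := {q | q.Prime ∧ ¬ Lw q}
  obtain ⟨A1, hA1, h3⟩ := dyadic_global (fun q => if q ∈ E then 1 else 0)
    (fun q => by split_ifs <;> norm_num) ε' hε'0 (by
      filter_upwards [h1] with Q hQ
      obtain ⟨F, hF1, hF2⟩ := hQ
      refine le_trans ?_ hF1
      rw [Finset.sum_boole]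
      refine Nat.cast_le.mpr (Finset.card_le_card fun q hq => ?_)
      rw [Finset.mem_filter] at hq
      by_contra hc
      exact hq.2.2 fun w hw => hF2 q hq.2.1 hq.1 hc w hw)
  refine ⟨C1, A1, E, fun X hX => ?_, ?_⟩
  · have h5 := h3 X hX
    rw [Finset.sum_boole] at h5
    have h6 : E ∩ Set.Iic X = ((Finset.Iic X).filter (fun q => q ∈ E) : Finset ℕ) := by
      ext q; simp [and_comm]
    rw [h6, Set.ncard_coe_finset]
    have hX' : (1 : ℝ) ≤ X := by exact_mod_cast hX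
    have h7 : (X : ℝ) ^ ε' ≤ (X : ℝ) ^ ε := Real.rpow_le_rpow_of_exponent_le hX' hε'2
    exact h5.trans (mul_le_mul_of_nonneg_left h7 hA1)
  · intro q _ hp hq θ
    have hL : Lw q := by
      by_contra hc
      exact hq ⟨hp, hc⟩
    have h5 := hL (Complex.exp (-(θ : ℂ) * Complex.I)) (by
      rw [← Complex.ofReal_neg]; exact Complex.norm_exp_ofReal_mul_I _)
    have hq1 : (1 : ℝ) ≤ q := by exact_mod_cast hp.one_le
    refine (Real.rpow_le_rpow_of_exponent_le hq1 (by linarith)).trans (h5.trans ?_)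
    rw [← Set.ncard_coe_finset]
    refine Nat.cast_le.mpr (Set.ncard_le_ncard ?_ (Set.toFinite _))
    intro χ hχ
    simp only [Finset.coe_filter, Finset.mem_univ, true_and, Set.mem_ofPred_eq] at hχ ⊢
    exact hχ

end Pool.Agent.Results.MP_34d6af_nt.LowerAlmostAll
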