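import Mathlib
import Pool.Agent.MP_34d6af_nt.ff.Ana

set_option autoImplicit false

namespace Pool.Agent.Results.MP_34d6af_nt.ModelBarrier

open Polynomial

/-- Over the polynomial ring on the field with two elements, for the modulus `X ^ n` of norm
`2 ^ n`, some real character exceeds the analogue of the conjectured maximum. -/
theorem result : ∃ N : ℕ, ∀ n : ℕ, N ≤ n →
    ∃ χ : MulChar ((ZMod 2)[X] ⧸ Ideal.span {(X ^ n : (ZMod 2)[X])}) ℂ, χ ≠ 1 ∧ χ.IsQuadratic ∧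
      ∃ L : ℂ → ℂ, Differentiable ℂ L ∧
        (∀ s : ℂ, 1 < s.re → HasSum (fun f : {f : (ZMod 2)[X] // f.Monic} =>
          χ (Ideal.Quotient.mk _ f.1) / ((2 : ℂ) ^ f.1.natDegree) ^ s) (L s)) ∧
        L 1 ≠ 0 ∧
        Real.log (Real.log ((2 : ℝ) ^ n)) + Real.sqrt (Real.log (Real.log ((2 : ℝ) ^ n))) / 20 ≤
          (-(deriv L 1 / L 1)).re := by
  refine ⟨2 ^ 10000, fun n hn => ?_⟩
  have n0 : n ≠ 0 := fun e => by
    rw [e] at hn
    exact absurd hn (Nat.not_le.2 (Nat.two_pow_pos _))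
  have hl : 100 * 100 ≤ Nat.log 2 n := Nat.le_log_of_pow_le one_lt_two hn
  have ht := Nat.le_sqrt.2 hl
  obtain ⟨χ, h1, h2, L, h3, h4, h5, h6⟩ := Pool.Agent.MP_34d6af_nt.FF.main ht (Nat.sqrt_le _)
    (Nat.lt_succ_sqrt _) (Nat.pow_log_le_self 2 n0)
  refine ⟨χ, h1, h2, L, h3, h4, h5, le_trans ?_ h6⟩
  have k1 : (n : ℝ) ≤ 2 ^ (Nat.log 2 n + 1) := by
    exact_mod_cast (Nat.lt_pow_succ_log_self one_lt_two n).le
  have k2 : (Nat.log 2 n + 1 : ℝ) ≤ ((Nat.log 2 n).sqrt + 1) ^ 2 := by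
    rw [sq]
    exact_mod_cast Nat.lt_succ_sqrt (Nat.log 2 n)
  generalize Nat.log 2 n = l at *
  generalize l.sqrt = t at *
  have l1 := Real.log_two_gt_d9
  have l2 := Real.log_two_lt_d9
  have n1 : (0 : ℝ) < n := by positivity
  have k3 : Real.log (Real.log ((2 : ℝ) ^ n)) ≤ (l + 1) * Real.log 2 := by
    rw [Real.log_pow]
    refine (Real.log_le_log (by positivity) (le_trans ?_ k1)).trans_eq (by rw [Real.log_pow]; simp)
    nlinarith
  have k4 : Real.sqrt (Real.log (Real.log ((2 : ℝ) ^ n))) ≤ t + 1 :=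
    Real.sqrt_le_iff.2 ⟨by positivity, k3.trans (le_trans (by
      nlinarith [Nat.cast_nonneg (α := ℝ) l]) k2)⟩
  have k5 : (t : ℝ) ≤ 8 * (t / 8 : ℕ) + 7 := by exact_mod_cast (by omega : t ≤ 8 * (t / 8) + 7)
  have k6 : (100 : ℝ) ≤ t := by exact_mod_cast ht
  push_cast
  nlinarith

end Pool.Agent.Results.MP_34d6af_nt.ModelBarrier
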