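import Mathlib
import Pool.Agent.MP_34d6af_nt.Final

set_option autoImplicit false

namespace Pool.Agent.Results.MP_34d6af_nt.UpperCount

open Finset Filter
open Pool.Agent.MP_34d6af_nt

/-- Few pairs (prime modulus, character) exceed the conjectured maximum. -/
theorem result (ε : ℝ) (hε : 0 < ε) : ∃ C A : ℝ, ∃ b : ℕ → ℕ,
    (∀ X : ℕ, 1 ≤ X → ∑ q ∈ Finset.Iic X, (b q : ℝ) ≤ A * (X : ℝ) ^ (1 + ε)) ∧
      ∀ (q : ℕ) [NeZero q], q.Prime →
        Set.ncard {χ : DirichletCharacter ℂ q | χ ≠ 1 ∧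
          Real.log (Real.log (q : ℝ)) + Real.log (Real.log (Real.log (q : ℝ))) + C <
            ‖deriv (DirichletCharacter.LFunction χ) 1 /
                DirichletCharacter.LFunction χ 1‖} ≤ b q := by
  classical
  obtain ⟨C2, h2⟩ := upper_dyadic ε hε
  let b : ℕ → ℕ := fun q => if h : q.Prime then
      haveI : NeZero q := ⟨h.ne_zero⟩
      (univ.filter (fun χ : DirichletCharacter ℂ q => χ ≠ 1 ∧
        Real.log (Real.log q) + Real.log (Real.log (Real.log q)) + C2 < ‖LD χ‖)).card
      else 0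
  obtain ⟨A2, hA2, h4⟩ := dyadic_global (fun q => (b q : ℝ)) (fun q => by positivity) (1 + ε)
    (by linarith) (by
      filter_upwards [h2] with Q hQ
      refine le_trans (le_of_eq (Finset.sum_congr rfl fun q _ => ?_)) hQ
      simp only [b]
      split_ifs <;> simp)
  refine ⟨C2, A2, b, h4, ?_⟩
  intro q _ hp
  simp only [b, dif_pos hp]
  rw [← Set.ncard_coe_finset]
  refine Set.ncard_le_ncard ?_ (Set.toFinite _)
  intro χ hχ
  simp only [Finset.coe_filter, Finset.mem_univ, true_and, Set.mem_ofPred_eq] at hχ ⊢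
  exact hχ

end Pool.Agent.Results.MP_34d6af_nt.UpperCount
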